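import Pool.Agent.Helper13.TC.Cub

/-!
# MP_40dc3c_ag: the Tate conjecture and Artin–Schreier covers of affine spaces

Let `T = (H, C, cl, special)` be a homology theory with cycle classes on the schemes over a field `k` of
characteristic `p > 0` (`CycleTheory`, with the axioms `IsValid`): `(H m).M X n` is the homology of `X`
in degree `2 n + m` twisted by `n`; there are the long exact sequences of closed subschemes and their
open complements, invariance under affine bundles, finiteness, a splitting axiom, and the homology of the
point; `C` are the groups of cycles modulo rational equivalence, and `special X n` is a subspace of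
`(H 0).M X n` preserved by push-forward along closed immersions, restriction to open subschemes and
pull-back along affine bundles. `T.Algebraic X a` says that all special classes of dimension `a` on `X`
are cycle classes. The theory is weighted (`IsWeighted`) if special classes on open subschemes are
restrictions of classes, and classes with special pull-back along an affine bundle, or with special
push-forward if the push-forward is injective, are special. We use two more properties: the same for
injective restrictions to open subschemes (`ReflectsRes`), and that the restriction along an open and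
closed immersion of a push-forward is the class itself (`ClopenRes`).

If `k` is finitely generated, the Borel–Moore étale homology with `ℚ_ℓ`-coefficients is such a theory,
where `special X n` are the classes in `H_{2n}(X̄, ℚ_ℓ(n))` which are invariant under the Galois group (by
the theory of weights there are no invariants in `H_{2n-1}(Z̄, ℚ_ℓ(n))`), and `T.Algebraic X a` is the
assertion of the question for `X` and `j = a`. No semisimplicity is used.

`asS p q` is the Artin–Schreier cover (a Galois cover with the group `ℤ/p`)
`s ^ p - s = t₀ q₀(x) + ⋯ + tᵣ qᵣ(x)` of the affine space of dimension `N + r + 1`.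
-/

set_option autoImplicit false

open CategoryTheory AlgebraicGeometry Pool.Agent.Y138.UC Pool.Agent.Helper13.TC

universe v

namespace Pool.Agent.Results.MP_40dc3c_ag.CubicArtinSchreierCovers

variable {k : Type} [Field k] {F : Type v} [Field F]

/-- The cover `s ^ p - s = t₀ q₀(x) + ⋯ + tᵣ qᵣ(x)` of the affine space with the coordinates
`t₀, …, tᵣ, x₁, …, x_N`. -/
noncomputable def asS (p : ℕ) {N r : ℕ} (q : Fin (r + 1) → MvPolynomial (Fin N) k) : Sch k :=
  aff k (AdjoinRoot (Polynomial.X ^ p - Polynomial.X - Polynomial.C (bil q)))

/-- There is an affine bundle over `X` whose total space is an affine variety (by Jouanolou this is so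
for all quasi-projective `X`, in particular for all affine `X`). -/
def Jouanolou (X : Sch k) : Prop :=
  ∃ (E : Sch k) (f : E ⟶ X) (m : ℕ), IsBun f m ∧ IsAffine E.left ∧ IsVariety E

/-- **Theorem.** Let `k` be a field of characteristic `p > 0`, and let `T` be a weighted homology theory
with cycle classes over `k`.
(1) For arbitrary polynomials `q₀, …, qᵣ` in `N` variables and `a ≠ N - 1, N`, the special classes of
dimension `a + r + 1` on `s ^ p - s = t₀ q₀(x) + ⋯ + tᵣ qᵣ(x)` are algebraic if and only if the special
classes of dimension `a` on `q₀ = ⋯ = qᵣ = 0` are algebraic.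
(2) The special classes are algebraic on all varieties with an affine bundle whose total space is affine,
in all dimensions, if and only if they are algebraic on the covers
`s ^ p - s = t₀ q₀(x) + ⋯ + tᵣ qᵣ(x)` with `deg qᵢ ≤ 2`.
(3) If the theory is strict, they are algebraic on all varieties if and only if they are algebraic on
these covers.
(4) If special classes are algebraic on all affine schemes of finite type of dimension at most `D` (for
Tate classes this is known for `D = 1`), then they are algebraic on the covers
`s ^ p - s = t₀ q₀(x) + ⋯ + tᵣ qᵣ(x)` with `N ≤ D + 1` variables `x`, for all `r` and all polynomials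
`qᵢ`, in all dimensions `n ≠ N + r, N + r + 1`. -/
theorem result (p : ℕ) [Fact p.Prime] [CharP k p] (T : CycleTheory.{0, v} k F) (hT : T.IsValid)
    (hw : T.IsWeighted) (hr : ReflectsRes T) (hcl : ClopenRes T) :
    (∀ (N r : ℕ) (q : Fin (r + 1) → MvPolynomial (Fin N) k) (a : ℤ), a ≠ N → a + 1 ≠ N →
      (T.Algebraic (asS p q) (a + (r + 1)) ↔ T.Algebraic (zeros k q) a)) ∧
    ((∀ X : Sch k, IsVariety X → Jouanolou X → ∀ a : ℤ, T.Algebraic X a) ↔
      ∀ (N r : ℕ) (q : Fin (r + 1) → MvPolynomial (Fin N) k),
        (∀ i, (q i).totalDegree ≤ 2) → ∀ n : ℤ, T.Algebraic (asS p q) n) ∧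
    (T.IsStrict → ((∀ X : Sch k, IsVariety X → ∀ a : ℤ, T.Algebraic X a) ↔
      ∀ (N r : ℕ) (q : Fin (r + 1) → MvPolynomial (Fin N) k),
        (∀ i, (q i).totalDegree ≤ 2) → ∀ n : ℤ, T.Algebraic (asS p q) n)) ∧
    (∀ D : ℕ, (∀ (B : Type) [CommRing B] [Algebra k B], Algebra.FiniteType k B →
        ringKrullDim B ≤ D → ∀ a, T.Algebraic (aff k B) a) →
      ∀ (N r : ℕ) (q : Fin (r + 1) → MvPolynomial (Fin N) k) (n : ℤ),
        N ≤ D + 1 → n ≠ N + r → n ≠ N + r + 1 → T.Algebraic (asS p q) n) := by
  have hvar : ∀ (N r : ℕ) (q : Fin (r + 1) → MvPolynomial (Fin N) k), IsVariety (asS p q) := by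
    intro N r q
    exact isVariety_aff _ (h := Algebra.FiniteType.trans (S := DD k r N) inferInstance
      inferInstance)
  have key : ∀ (N r : ℕ) (q : Fin (r + 1) → MvPolynomial (Fin N) k) (a : ℤ), a ≠ N → a + 1 ≠ N →
      (T.Algebraic (asS p q) (a + (r + 1)) ↔ T.Algebraic (zeros k q) a) :=
    fun N r q a ha ha' => zeros_iff_as p q hT hw hcl hr a ha ha'
  have haff : (∀ (N r : ℕ) (q : Fin (r + 1) → MvPolynomial (Fin N) k),
      (∀ i, (q i).totalDegree ≤ 2) → ∀ n : ℤ, T.Algebraic (asS p q) n) →
      ∀ E : Sch k, IsAffine E.left → IsVariety E → ∀ a, T.Algebraic E a := by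
    intro h E hE hE' a
    obtain ⟨B, _, _, hB, ⟨e⟩⟩ := exists_aff_iso E hE'
    refine hT.algebraic_of_iso e hE' ?_
    obtain ⟨N, r, q, hN, hq, ⟨e'⟩⟩ := exists_presentation k B (a + 2).toNat
    refine hT.algebraic_of_iso (affIso e') (isVariety_aff B) ?_
    exact (key N r q a (by omega) (by omega)).1 (h N r q hq _)
  refine ⟨key, ⟨fun h N r q _ n => ?_, fun h X hX ⟨E, f, m, hf, hE, hE'⟩ a => ?_⟩,
    fun hs => ⟨fun h N r q _ n => h _ (hvar N r q) n, fun h X hX a => ?_⟩,
    fun D hD N r q n hN hn hn' => ?_⟩
  · refine h _ (hvar N r q) ⟨asS p q, 𝟙 _, 0, ?_, ?_, hvar N r q⟩ n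
    · exact isAffineBundle_of_isIso (𝟙 (asS p q : Sch k).left)
    · change IsAffine (Spec _)
      infer_instance
  · exact hT.algebraic_of_bundle f hf hX (haff h E hE hE' _)
  · exact hs.algebraic_of_affine hT (fun E hE hE' a => haff h E hE hE' a) X hX a
  · have h1 : n = (n - (r + 1)) + (r + 1) := by ring
    rw [h1]
    refine (key N r q _ (by omega) (by omega)).2 ?_
    by_cases hI : Ideal.span (Set.range q) = ⊥
    · refine hT.algebraic_of_iso (affIso (AlgEquiv.trans
        (AlgEquiv.quotientBot k (MvPolynomial (Fin N) k)).symm
          (Ideal.quotientEquivAlgOfEq k hI.symm))) (isVariety_aff _) ?_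
      intro x _
      have h2 := hT.affine_space N 0 (n - (r + 1)) (by omega)
      exact ⟨0, Subsingleton.elim _ _⟩
    · exact hD _ (by infer_instance) (ringKrullDim_quotient _ hI hN) _

end Pool.Agent.Results.MP_40dc3c_ag.CubicArtinSchreierCovers
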