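import Pool.Agent.Helper13.TC.Cov

/-!
# MP_40dc3c_ag: the Tate conjecture on all varieties and on finite étale covers of affine spaces

Let `T = (H, C, cl, special)` be a homology theory with cycle classes on the schemes over a field `k`
(`CycleTheory`, with the axioms `IsValid`): `(H m).M X n` is the homology of `X` in degree `2 n + m`
twisted by `n`; there are the long exact sequences of closed subschemes and their open complements,
invariance under affine bundles, finiteness, a splitting axiom, and the homology of the point; `C` are
the groups of cycles modulo rational equivalence, and `special X n` is a subspace of `(H 0).M X n`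
preserved by push-forward along closed immersions, restriction to open subschemes and pull-back along
affine bundles. `T.Algebraic X a` says that all special classes of dimension `a` on `X` are cycle
classes. The theory is strict (`IsStrict`) if moreover cycle classes are special, special classes on
open subschemes are restrictions of classes, classes with special pull-back (or with special
push-forward, if the push-forward is injective) are special, and a special class vanishing on the
complement of a closed subscheme is the push-forward of a special class.

For a finite field `k` the Borel–Moore étale homology with `ℚ_ℓ`-coefficients is such a theory, where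
`special X n` is the space of all classes in `H_{2n}(X̄, ℚ_ℓ(n))` killed by a power of `φ - 1`, `φ` the
Frobenius: by Deligne the weights of `H_{2n-1}(X̄, ℚ_ℓ(n))` are positive, so that taking the generalized
eigenspace of the eigenvalue `1` makes the sequences exact on both sides. `T.Algebraic X a` is then the
assertion of the question for `X` and `j = a`, together with the semisimplicity of `φ` for the
eigenvalue `1`. (If this semisimplicity is known, the Galois invariant classes are a strict theory.)

`covS f` is the cover `f(x_1, …, x_m, t) = 0` of the affine space of dimension `m`; `IsCover f` says that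
`f` is irreducible, monic in `t`, and has a constant discriminant: the cover is connected, finite and
étale.
-/

set_option autoImplicit false

open CategoryTheory AlgebraicGeometry Pool.Agent.Y138.UC

universe v

namespace Pool.Agent.Results.MP_40dc3c_ag.EtaleCoversOfAffineSpace

variable {k : Type} [Field k] {F : Type v} [Field F]

/-- The cover `f(x_1, …, x_m, t) = 0` of the affine space of dimension `m` over `k`. -/
noncomputable def covS {m : ℕ} (f : Polynomial (MvPolynomial (Fin m) k)) : Sch k :=
  aff k (AdjoinRoot f)

/-- `f` is irreducible and monic in `t` and its discriminant is a non-zero constant (`f` and its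
derivative with respect to `t` generate the unit ideal), so that `covS f` is a connected finite étale
cover of the affine space of dimension `m`. -/
structure IsCover {m : ℕ} (f : Polynomial (MvPolynomial (Fin m) k)) : Prop where
  monic : f.Monic
  coprime : IsCoprime f (Polynomial.derivative f)
  irreducible : Irreducible f

/-- All special classes of dimension at least `d - c` on all varieties of dimension at most `d` are
algebraic (the special classes of codimension at most `c`, in dimension at most `d`). -/
def UpTo (T : CycleTheory.{0, v} k F) (d c : ℕ) : Prop :=
  ∀ X : Sch k, IsVariety X → topologicalKrullDim X.left ≤ d → ∀ a : ℤ, d ≤ a + c → T.Algebraic X a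

/-- The special classes of dimension `a` are algebraic on all varieties of dimension at most `a` (they
are combinations of the classes of the irreducible components of dimension `a`). -/
def TopAlgebraic (T : CycleTheory.{0, v} k F) : Prop :=
  ∀ X : Sch k, IsVariety X → ∀ a : ℤ, (∀ n : ℕ, a < n → topologicalKrullDim X.left < n) →
    T.Algebraic X a

/-- **Theorem.** Let `k` be a perfect field of characteristic `p > 0` (for example a finite field), and
let `T` be a strict homology theory with cycle classes over `k` with the (known) property
`TopAlgebraic T`.
(1) For all `d` and `c`, the special classes of dimension at least `d - c` are algebraic on all varieties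
of dimension at most `d`, if and only if the special classes of the dimensions `a` with
`d - c ≤ a < d` are algebraic on the connected finite étale covers `f(x_1, …, x_d, t) = 0` of the affine
space of dimension `d`.
(2) The special classes are algebraic on all varieties, in all dimensions, if and only if they are
algebraic on the connected finite étale covers of the affine spaces. -/
theorem result [PerfectField k] (p : ℕ) [CharP k p] (hp : p ≠ 0) (T : CycleTheory.{0, v} k F)
    (hT : T.IsValid) (hs : T.IsStrict) (htop : TopAlgebraic T) :
    (∀ d c : ℕ, UpTo T d c ↔
      ∀ f : Polynomial (MvPolynomial (Fin d) k), IsCover f →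
        ∀ a : ℤ, d ≤ a + c → a < d → T.Algebraic (covS f) a) ∧
    ((∀ X : Sch k, IsVariety X → ∀ a : ℤ, T.Algebraic X a) ↔
      ∀ (d : ℕ) (f : Polynomial (MvPolynomial (Fin d) k)), IsCover f →
        ∀ a : ℤ, a < d → T.Algebraic (covS f) a) := by
  have hcov : ∀ (m : ℕ) (f : Polynomial (MvPolynomial (Fin m) k)), IsVariety (covS f) := fun m f =>
    isVariety_aff _ (h := Pool.Agent.Helper13.TC.ft_cov f)
  have htop' : ∀ (m : ℕ) (f : Polynomial (MvPolynomial (Fin m) k)), IsCover f → ∀ a : ℤ, m ≤ a →
      T.Algebraic (covS f) a := by
    intro m f hf a ha
    refine htop _ (hcov m f) _ fun n hn => ?_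
    refine lt_of_le_of_lt (Pool.Agent.Helper13.TC.dim_cov f hf.monic.ne_zero) ?_
    have h1 : m < n := by omega
    exact_mod_cast h1
  refine ⟨fun d c => ⟨fun h f hf a ha _ => ?_, fun h X hX hd a ha => ?_⟩,
    ⟨fun h m f hf a _ => h _ (hcov m f) a, fun h X hX a => ?_⟩⟩
  · exact h _ (hcov d f) (Pool.Agent.Helper13.TC.dim_cov f hf.monic.ne_zero) a ha
  · refine Pool.Agent.Helper13.TC.of_covers hT hs p hp d a (fun m f hm hf hc hi => ?_) X hX hd
    rcases le_or_gt (m : ℤ) a with hma | hma
    · exact htop' m f ⟨hf, hc, hi⟩ a hma
    obtain ⟨j, hj⟩ := Nat.exists_eq_add_of_le hm
    have h1 := Pool.Agent.Helper13.TC.of_covers_eq hT p hp d (m - a) (fun f' h1 h2 h3 =>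
      h f' ⟨h1, h2, h3⟩ _ (by omega) (by omega)) j m hj.symm f hf hc hi
    rw [sub_sub_cancel] at h1
    exact h1
  · refine Pool.Agent.Helper13.TC.of_covers_all hT hs p hp a (fun m f hf hc hi => ?_) X hX
    rcases le_or_gt (m : ℤ) a with hma | hma
    · exact htop' m f ⟨hf, hc, hi⟩ a hma
    · exact h m f ⟨hf, hc, hi⟩ a hma

end Pool.Agent.Results.MP_40dc3c_ag.EtaleCoversOfAffineSpace
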