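import Pool.Agent.Helper24.KG.Exist

/-!
# The growth of the missing Tate classes of hypersurface complements

Let `ℓ` be a prime number and `k` a number field, or a finite field of characteristic different from `ℓ`. Let
`C` be the category of Chow motives over `k`, with the duals `N^∨`. For a motive `N` let
`cyc N = Hom(1, N^∨) ⊗ ℚ_ℓ`, `inv N = (H^0(N^∨))^G` (the invariants of the Galois group in the `ℓ`-adic
realization) and `cl : cyc N → inv N`, contravariant functors of `N`. If `X` is smooth and projective and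
`N = h(X)(n)`, then `cl` is the cycle class map `c_n : CH_n(X)_{ℚ_ℓ} → (H_{2n}(X̄, ℚ_ℓ(n)))^G` of question
Q1, as `h(X)^∨(-n)` is the motive with `Hom(1, h(X)^∨(-n)) = CH_n(X)`. The dual of the space of the missing
classes, `miss N = (coker cl)^*`, is a covariant additive functor of `N`.

For a separated scheme `X` of finite type over `k` let `W(X)` be its weight complex with compact supports
(Gillet, Soulé), a bounded complex of Chow motives, and let `χ_n(X)` (`chiMiss n X`) be the Euler
characteristic of the complex `miss (W(X)(n))`. We look at the open subsets `D(F) : F ≠ 0` of the affine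
spaces. For polynomials with coefficients in `ℤ` let `‖F‖` be the sum of the absolute values of the
coefficients, and `size F = deg F + log ‖F‖ / log (log ‖F‖ + 3)`.

**Theorem.** Let `n`, `d ≥ 0` and `κ ≥ 1` be given.

(1) The map `c_n` is surjective for all varieties (possibly singular or open) of dimension at most `d` over
all number fields if and only if `χ_n(D(F)) = o(size F)` for `F ∈ ℤ[x_1, …, x_{d+1}]`. It is enough that
`χ_n(D(F)) = o((size F)^κ)` for `F ∈ ℤ[x_1, …, x_{d+κ}]`, or one-sided bounds `χ_n ≤ o((size F)^κ)` (or the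
same for `-χ_n`) in `d + κ` and in `d + κ + 1` variables.

(2) Let `k` be a number field. The map `c_n` is surjective for all varieties of dimension at most `d` over `k`
if and only if `χ_n(D(F)) = o(deg F)` for `F ∈ k[x_1, …, x_{d+1}]`.

(3) Let `k` be a finite field with `q` elements. The map `c_n` is surjective for all smooth projective
varieties of dimension at most `d` over `k` if and only if `χ_n(D(F)) = o(deg F / log (deg F + 3))` for
`F ∈ k[x_1, …, x_{d+1}]`. The maps `c_n`, `n ≤ J`, are surjective for all smooth projective varieties over `k`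
if and only if for all `n ≤ J` and all `b` we have `χ_n(D(F)) ≤ o(q^r)` for the polynomials
`F ∈ k[x_1, …, x_r]` with `deg F ≤ q r + b`; the same with `-χ_n`.
-/

set_option autoImplicit false
set_option linter.checkUnivs false

open CategoryTheory Limits AlgebraicGeometry Pool.Agent.Y116.UV Pool.Agent.Q282.UM
  Pool.Agent.Q282.UK Pool.Agent.Helper24.KD Pool.Agent.Helper24.KF

open Pool.Agent.Helper24.KG (IsWeightsF dualF)

universe v u

namespace Pool.Agent.Results.MP_40dc3c_ag.GrowthOfMissingClasses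

/-- The principal open subset `D(F) : F ≠ 0` of the affine space over `k`. -/
noncomputable def princ {k : Type} [Field k] {r : ℕ} (F : MvPolynomial (Fin r) k) : Sch k :=
  aff k (Localization.Away F)

/-- The sum of the absolute values of the coefficients. -/
def norm {r : ℕ} (F : MvPolynomial (Fin r) ℤ) : ℕ := ∑ s ∈ F.support, (F.coeff s).natAbs

/-- The size `deg F + log ‖F‖ / log (log ‖F‖ + 3)`. -/
noncomputable def size {r : ℕ} (F : MvPolynomial (Fin r) ℤ) : ℝ :=
  F.totalDegree + Real.log (norm F) / Real.log (Real.log (norm F) + 3)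

/-- The polynomial with rational coefficients. -/
noncomputable def rat {r : ℕ} (F : MvPolynomial (Fin r) ℤ) : MvPolynomial (Fin r) ℚ :=
  MvPolynomial.map (algebraMap ℤ ℚ) F

/-- The category `C` of Chow motives over `k`, with

* the motives `h(X)`, the Tate twists `N(n)` and the weight complexes `W(X)` (`Weights`);
* the contravariant functors `cyc`, `inv` and the cycle class map `cl`;
* the statement `Surj n X`: the map `c_n` is surjective for the variety `X` over `k`. -/
structure Mot (ℓ : ℕ) [Fact ℓ.Prime] (k : Type) [Field k] where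
  C : Type u
  [cat : Category.{v} C]
  [pre : Preadditive C]
  [zero : HasZeroObject C]
  [bin : HasBinaryBiproducts C]
  [fin : HasFiniteBiproducts C]
  D : Weights k C
  cyc : Cᵒᵖ ⥤ ModuleCat.{0} ℚ_[ℓ]
  inv : Cᵒᵖ ⥤ ModuleCat.{0} ℚ_[ℓ]
  [cyc_additive : cyc.Additive]
  [inv_additive : inv.Additive]
  cl : cyc ⟶ inv
  Surj : ℤ → Sch k → Prop

attribute [instance] Mot.cat Mot.pre Mot.zero Mot.bin Mot.fin Mot.cyc_additive Mot.inv_additive

section

variable {ℓ : ℕ} [Fact ℓ.Prime] {k : Type} [Field k] (M : Mot.{v, u} ℓ k)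

/-- The motive `h(X)(n)`. -/
noncomputable def Mot.motive (n : ℤ) (X : Sch k) : M.C := (M.D.tw n).obj (M.D.h X)

/-- The dual of the space of the missing classes. -/
noncomputable abbrev Mot.miss : M.C ⥤ ModuleCat.{0} ℚ_[ℓ] := dualF (cokerF M.cl)

/-- The Euler characteristic of `miss (W(X)(n))`. -/
noncomputable def chiMiss (n : ℤ) (X : Sch k) : ℤ := chi M.miss (onHK (M.D.tw n) (M.D.W X))

/-- The known properties over all fields:

* `smooth`: for smooth projective `X`, the map `c_n` is `cl` for the motive `h(X)(n)`;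
* `finite`: the cohomology has finite dimension;
* `points`: Q1 is true in dimension zero. -/
structure Basic : Prop where
  smooth : ∀ X : Sch k, IsSmoothProjective X → ∀ n : ℤ,
    (M.Surj n X ↔ Function.Surjective (M.cl.app (Opposite.op (M.motive n X))).hom)
  finite : ∀ X : Sch k, IsSmoothProjective X → ∀ n : ℤ,
    Module.Finite ℚ_[ℓ] (M.inv.obj (Opposite.op (M.motive n X)))
  points : ∀ X : Sch k, IsSmoothProjective X → topologicalKrullDim X.left ≤ (0 : ℕ) →
    ∀ n : ℤ, M.Surj n X

/-- `c_n` is surjective for all varieties over `k` of dimension at most `d`. -/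
def SurjDim (n : ℤ) (d : ℕ) : Prop :=
  ∀ X : Sch k, FT True X → topologicalKrullDim X.left ≤ d → M.Surj n X

/-- `χ_n(D(F)) = o(deg F)` for `F ∈ k[x_1, …, x_r]`. -/
def DegBound (n : ℤ) (r : ℕ) : Prop :=
  ∀ ε : ℝ, 0 < ε → ∃ B : ℝ, ∀ F : MvPolynomial (Fin r) k,
    |(chiMiss M n (princ F) : ℝ)| ≤ ε * F.totalDegree + B

/-- `χ_n(D(F)) = o(deg F / log (deg F + 3))` for `F ∈ k[x_1, …, x_r]`. -/
def LogBound (n : ℤ) (r : ℕ) : Prop :=
  ∀ ε : ℝ, 0 < ε → ∃ B : ℝ, ∀ F : MvPolynomial (Fin r) k,
    |(chiMiss M n (princ F) : ℝ)| ≤ ε * (F.totalDegree / Real.log (F.totalDegree + 3)) + B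

/-- For all `b`: `R χ_n(D(F)) ≤ o(q^r)` for `F ∈ k[x_1, …, x_r]` of degree at most `q r + b`. -/
def SlowGrowth (R : ℤ → ℤ) (n : ℤ) : Prop :=
  ∀ (b : ℕ) (ε : ℝ), 0 < ε → ∃ r₀ : ℕ, ∀ r, r₀ ≤ r → ∀ F : MvPolynomial (Fin r) k,
    F.totalDegree ≤ Nat.card k * r + b →
      (R (chiMiss M n (princ F)) : ℝ) ≤ ε * (Nat.card k : ℝ) ^ r

end

/-- `R χ_n(D(F)) ≤ o((size F)^κ)` for `F ∈ ℤ[x_1, …, x_r]`, where `R c` is `|c|`, `c` or `-c`. -/
def Bound {ℓ : ℕ} [Fact ℓ.Prime] (M : Mot.{v, u} ℓ ℚ) (R : ℤ → ℤ) (n : ℤ) (r κ : ℕ) : Prop :=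
  ∀ ε : ℝ, 0 < ε → ∃ B : ℝ, ∀ F : MvPolynomial (Fin r) ℤ,
    (R (chiMiss M n (princ (rat F))) : ℝ) ≤ ε * size F ^ κ + B

/-- The known properties over number fields:

* `weight`: the weight complexes;
* `jannsen`: for each `n` and `d`, the smooth projective varieties of dimension at most `d` suffice;
* `restrict`: a smooth projective scheme over `k` is a smooth projective scheme over `ℚ`, with the same
  cycles and the same invariants. -/
structure Known {ℓ : ℕ} [Fact ℓ.Prime] (M : ∀ (k : Type) [Field k] [NumberField k], Mot.{v, u} ℓ k) :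
    Prop where
  basic : ∀ (k : Type) [Field k] [NumberField k], Basic (M k)
  weight : ∀ (k : Type) [Field k] [NumberField k], IsWeightComplex (M k).D
  jannsen : ∀ (k : Type) [Field k] [NumberField k] (n : ℤ) (d : ℕ),
    (∀ X : Sch k, IsSmoothProjective X → topologicalKrullDim X.left ≤ d → (M k).Surj n X) →
      SurjDim (M k) n d
  restrict : ∀ (k : Type) [Field k] [NumberField k] (X : Sch k), IsSmoothProjective X →
    ∃ X' : Sch ℚ, IsSmoothProjective X' ∧
      topologicalKrullDim X'.left = topologicalKrullDim X.left ∧ ∀ n : ℤ,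
        ((M ℚ).Surj n X' ↔ (M k).Surj n X)

/-- The known properties over finite fields: `weight`, the weight complexes; `negative`, the groups
`H_{2n}(X̄, ℚ_ℓ(n))` are zero for `n < 0`. -/
structure KnownFinite {ℓ : ℕ} [Fact ℓ.Prime] {k : Type} [Field k] (M : Mot.{v, u} ℓ k) : Prop where
  basic : Basic M
  weight : IsWeightsF M.D
  negative : ∀ X : Sch k, IsSmoothProjective X → ∀ n : ℤ, n < 0 →
    Subsingleton (M.inv.obj (Opposite.op (M.motive n X)))

section

variable {ℓ : ℕ} [Fact ℓ.Prime] {k : Type} [Field k] {M : Mot.{v, u} ℓ k} (hB : Basic M)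

include hB

lemma surj_iff (n : ℤ) (X : Sch k) (hX : IsSmoothProjective X) :
    M.Surj n X ↔ Subsingleton (M.miss.obj (M.motive n X)) := by
  rw [hB.smooth X hX, ← ModuleCat.epi_iff_surjective]
  have h1 : Epi (M.cl.app (Opposite.op (M.motive n X))) ↔
      Subsingleton ((cokerF M.cl).obj (Opposite.op (M.motive n X))) := by
    constructor
    · intro h
      exact ModuleCat.subsingleton_of_isZero
        (isZero_cokernel_of_epi (M.cl.app (Opposite.op (M.motive n X))))
    · intro h
      have h3 : IsZero (cokernel (M.cl.app (Opposite.op (M.motive n X)))) :=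
        @ModuleCat.isZero_of_subsingleton _ _ _ h
      exact Preadditive.epi_of_isZero_cokernel _ h3
  rw [h1]
  change _ ↔ Subsingleton (Module.Dual ℚ_[ℓ] ((cokerF M.cl).obj (Opposite.op (M.motive n X))))
  constructor
  · intro h
    infer_instance
  · intro h
    refine subsingleton_of_forall_eq 0 fun x => ?_
    rw [← Module.forall_dual_apply_eq_zero_iff ℚ_[ℓ]]
    intro f
    rw [h.elim f 0]
    rfl

lemma finite_miss (n : ℤ) (X : Sch k) (hX : IsSmoothProjective X) :
    Module.Finite ℚ_[ℓ] (M.miss.obj (M.motive n X)) := by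
  have h1 := hB.finite X hX n
  have h2 : Module.Finite ℚ_[ℓ] ((cokerF M.cl).obj (Opposite.op (M.motive n X))) :=
    Module.Finite.of_surjective (cokernel.π (M.cl.app (Opposite.op (M.motive n X)))).hom
      ((ModuleCat.epi_iff_surjective _).mp inferInstance)
  change Module.Finite ℚ_[ℓ] (Module.Dual ℚ_[ℓ] ((cokerF M.cl).obj (Opposite.op (M.motive n X))))
  infer_instance

end

section numberFields

variable {ℓ : ℕ} [Fact ℓ.Prime] {M : ∀ (k : Type) [Field k] [NumberField k], Mot.{v, u} ℓ k}
  (hM : Known M)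

include hM

variable (k : Type) [Field k] [NumberField k]

variable (M) in
omit hM in
/-- The Euler characteristic is defined and is `c`. -/
def Q (n : ℤ) : Sch k → ℤ → Prop := QT (TOne (M k).miss) (M k).D n

lemma dfc (n : ℤ) : Pool.Agent.Helper24.KE.Dfc True (Q M k n) := dfcT (tOne _) (hM.weight k) n

lemma q_self (n : ℤ) {r : ℕ} (F : MvPolynomial (Fin r) k) :
    Q M k n (Pool.Agent.Helper24.KE.U F) (chiMiss (M k) n (princ F)) := by
  obtain ⟨N, hN⟩ := Pool.Agent.Helper24.KZ.exists_dim_aff (k := k) (Localization.Away F)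
  obtain ⟨c, hc⟩ := one_exists (F := (M k).miss) (hM.weight k) (n := n) (N := N)
    (fun Y hY _ => finite_miss (hM.basic k) n Y hY) (aff k (Localization.Away F)) (ft_aff True) hN
  have h1 := (tOne_iff.mp hc).2
  have h2 : chiMiss (M k) n (princ F) = c := h1
  rw [h2]
  exact hc

/-- Exact formulas in dimension at most `d`. -/
lemma exact_dim {n : ℤ} {d : ℕ} (h : ∀ X : Sch k, IsSmoothProjective X →
    topologicalKrullDim X.left ≤ d → (M k).Surj n X) (X : Sch k) (hX : FT True X)
    (hd : topologicalKrullDim X.left ≤ d) : Q M k n X 0 :=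
  one_zero (hM.weight k) (fun Y hY hYd => (surj_iff (hM.basic k) n Y hY).mp (h Y hY hYd)) X hX hd

lemma space (n : ℤ) (m : ℕ) : Q M k n (aff k (MvPolynomial (Fin m) k)) 0 := by
  refine spaceT (tOne _) (hM.weight k) (fun n => ?_) n m
  refine exact_dim hM k (fun X hX hd => (hM.basic k).points X hX hd n) _ (ft_aff True) ?_
  rw [Pool.Agent.Z125.UN.topDim_aff, ringKrullDim_eq_zero_of_field]
  exact le_rfl

lemma surj_of_zero {n : ℤ} {X : Sch k} (hX : IsSmoothProjective X) (h : Q M k n X 0) :
    (M k).Surj n X := by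
  refine (surj_iff (hM.basic k) n X hX).mpr ?_
  obtain ⟨h2, h3⟩ := one_inZero.mp (projT (tOne _) (hM.weight k) hX h)
  have h4 : Subsingleton ((M k).miss.obj (((M k).D.tw n).obj ((M k).D.h X))) :=
    Module.finrank_zero_iff.mp (by exact_mod_cast h3)
  exact h4

lemma all_of_rat {n : ℤ} {d : ℕ} (h : ∀ X : Sch ℚ, IsSmoothProjective X →
    topologicalKrullDim X.left ≤ d → (M ℚ).Surj n X) : SurjDim (M k) n d := by
  refine hM.jannsen k n d fun X hX hd => ?_
  obtain ⟨X', hX', e1, e2⟩ := hM.restrict k X hX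
  exact (e2 n).mp (h X' hX' (e1 ▸ hd))

omit k [Field k] [NumberField k] in
lemma to_Z {R : ℤ → ℤ} {n : ℤ} {r κ : ℕ} (h : Bound (M ℚ) R n r κ) :
    BoundZ (Q M ℚ n) R r κ := by
  intro ε hε
  obtain ⟨B, hB⟩ := h ε hε
  exact ⟨B, fun F => ⟨_, q_self hM ℚ n _, hB F⟩⟩

omit k [Field k] [NumberField k] in
lemma of_Z {R : ℤ → ℤ} {n : ℤ} {r κ : ℕ} (h : BoundZ (Q M ℚ n) R r κ) :
    Bound (M ℚ) R n r κ := by
  intro ε hε
  obtain ⟨B, hB⟩ := h ε hε
  refine ⟨B, fun F => ?_⟩
  obtain ⟨c, h1, h2⟩ := hB F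
  rw [(dfc hM ℚ n).uniq (q_self hM ℚ n (rat F)) h1]
  exact h2

omit k [Field k] [NumberField k] in
/-- All number fields. -/
theorem all_fields (n : ℤ) (d : ℕ) :
    ((∀ (k : Type) [Field k] [NumberField k], SurjDim (M k) n d) ↔ Bound (M ℚ) abs n (d + 1) 1) ∧
    (∀ κ : ℕ, 1 ≤ κ → Bound (M ℚ) abs n (d + κ) κ →
      ∀ (k : Type) [Field k] [NumberField k], SurjDim (M k) n d) ∧
    ∀ κ : ℕ, 1 ≤ κ → ∀ R : ℤ → ℤ, (R = id ∨ R = Neg.neg) → Bound (M ℚ) R n (d + κ) κ →
      Bound (M ℚ) R n (d + κ + 1) κ → ∀ (k : Type) [Field k] [NumberField k],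
        SurjDim (M k) n d := by
  have key : ∀ κ : ℕ, 1 ≤ κ → Bound (M ℚ) abs n (d + κ) κ →
      ∀ (k : Type) [Field k] [NumberField k], SurjDim (M k) n d := fun κ hκ h k _ _ =>
    all_of_rat hM k fun X hX hd => surj_of_zero hM ℚ hX
      (main_abs (dfc hM ℚ n) (space hM ℚ n) hκ (to_Z hM h) X (ft_projective hX) hd)
  refine ⟨⟨fun h => of_Z hM (to_boundZ (exact_open (dfc hM ℚ n) (space hM ℚ n)
      (exact_dim hM ℚ fun X hX hd => h ℚ X (ft_projective hX) hd)) abs_zero 1), key 1 le_rfl⟩,
    key, fun κ hκ R hR h h' k _ _ => all_of_rat hM k fun X hX hd => surj_of_zero hM ℚ hX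
      (main_one (dfc hM ℚ n) (space hM ℚ n) hκ hR (to_Z hM h) (to_Z hM h') X
        (ft_projective hX) hd)⟩

/-- One number field. -/
theorem one_field (n : ℤ) (d : ℕ) : SurjDim (M k) n d ↔ DegBound (M k) n (d + 1) := by
  constructor
  · intro h ε hε
    obtain ⟨B, hB⟩ := to_boundK (exact_open (dfc hM k n) (space hM k n)
      (exact_dim hM k fun X hX hd => h X (ft_projective hX) hd)) ε hε
    refine ⟨B, fun F => ?_⟩
    obtain ⟨c, h1, h2⟩ := hB F
    rw [(dfc hM k n).uniq (q_self hM k n F) h1]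
    exact h2
  · intro h
    refine hM.jannsen k n d fun X hX hd => surj_of_zero hM k hX
      (main_field (dfc hM k n) (space hM k n) ?_ X (ft_projective hX) hd)
    intro ε hε
    obtain ⟨B, hB⟩ := h ε hε
    exact ⟨B, fun F => ⟨_, q_self hM k n F, hB F⟩⟩

end numberFields

section finiteFields

open Pool.Agent.Helper24.KG

variable {ℓ : ℕ} [Fact ℓ.Prime] {k : Type} [Field k] {M : Mot.{v, u} ℓ k} (hM : KnownFinite M)

include hM

lemma knownF : Pool.Agent.Helper24.KG.Known M.miss M.D where
  weight := hM.weight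
  points n X hX hd := (surj_iff hM.basic n X hX).mp (hM.basic.points X hX (by exact_mod_cast hd) n)
  negative n hn X hX := (surj_iff hM.basic n X hX).mp ((hM.basic.smooth X hX n).mpr (by
    have := hM.negative X hX n hn
    exact fun x => ⟨0, Subsingleton.elim _ _⟩))

lemma log_iff {n : ℤ} {r : ℕ} : LogBound M n r ↔ Pool.Agent.Helper24.KG.Bound M.miss M.D abs n r := by
  refine forall₂_congr fun ε hε => exists_congr fun B => forall_congr' fun G => ?_
  have h0 := has_chi hM.weight (fun Y hY => finite_miss hM.basic n Y hY) G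
  rw [Int.cast_abs]
  exact ⟨fun h => ⟨h0, h⟩, fun h => h.2⟩

lemma growth_iff {R : ℤ → ℤ} {n : ℤ} : SlowGrowth M R n ↔ Growth M.miss M.D R n :=
  ⟨fun h => ⟨fun r G => has_chi hM.weight (fun Y hY => finite_miss hM.basic n Y hY) G, h⟩,
    fun h => h.2⟩

variable [Finite k]

theorem finite_dim (n : ℤ) (d : ℕ) : (∀ X : Sch k, IsSmoothProjective X →
    topologicalKrullDim X.left ≤ d → M.Surj n X) ↔ LogBound M n (d + 1) := by
  rw [log_iff hM]
  exact ⟨fun h => to_bound (knownF hM) (fun X hX hd => (surj_iff hM.basic n X hX).mp (h X hX hd))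
    abs_zero, fun h X hX hd => (surj_iff hM.basic n X hX).mpr (from_abs (knownF hM) h X hX hd)⟩

theorem finite_growth (J : ℤ) {R : ℤ → ℤ} (hR : R = id ∨ R = Neg.neg) :
    (∀ n ≤ J, ∀ X : Sch k, IsSmoothProjective X → M.Surj n X) ↔ ∀ n ≤ J, SlowGrowth M R n := by
  constructor
  · intro h n hn
    refine (growth_iff hM).mpr (to_growth (knownF hM)
      (fun X hX => (surj_iff hM.basic n X hX).mp (h n hn X hX)) ?_)
    rcases hR with rfl | rfl
    · rfl
    · exact neg_zero
  · intro h n hn X hX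
    exact (surj_iff hM.basic n X hX).mpr
      (from_growth (knownF hM) hR (fun n hn => (growth_iff hM).mp (h n hn)) n hn X hX)

end finiteFields

/-- **The growth of the missing Tate classes of hypersurface complements.** See the explanations
above. -/
theorem result (ℓ : ℕ) [Fact ℓ.Prime] (M : ∀ (k : Type) [Field k], Mot.{v, u} ℓ k)
    (hM : Known fun (k : Type) [Field k] [NumberField k] => M k) (n : ℤ) :
    -- (1) all number fields
    (∀ d : ℕ, ((∀ (k : Type) [Field k] [NumberField k], SurjDim (M k) n d) ↔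
        Bound (M ℚ) abs n (d + 1) 1) ∧
      (∀ κ : ℕ, 1 ≤ κ → Bound (M ℚ) abs n (d + κ) κ →
        ∀ (k : Type) [Field k] [NumberField k], SurjDim (M k) n d) ∧
      ∀ κ : ℕ, 1 ≤ κ → ∀ R : ℤ → ℤ, (R = id ∨ R = Neg.neg) → Bound (M ℚ) R n (d + κ) κ →
        Bound (M ℚ) R n (d + κ + 1) κ → ∀ (k : Type) [Field k] [NumberField k],
          SurjDim (M k) n d) ∧
    -- (2) one number field
    (∀ (k : Type) [Field k] [NumberField k] (d : ℕ),
      SurjDim (M k) n d ↔ DegBound (M k) n (d + 1)) ∧
    -- (3) one finite field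
    ∀ (k : Type) [Field k] [Finite k], KnownFinite (M k) →
      (∀ d : ℕ, (∀ X : Sch k, IsSmoothProjective X → topologicalKrullDim X.left ≤ d →
        (M k).Surj n X) ↔ LogBound (M k) n (d + 1)) ∧
      ∀ R : ℤ → ℤ, (R = id ∨ R = Neg.neg) →
        ((∀ i ≤ n, ∀ X : Sch k, IsSmoothProjective X → (M k).Surj i X) ↔
          ∀ i ≤ n, SlowGrowth (M k) R i) :=
  ⟨fun d => all_fields hM n d, fun k _ _ d => one_field hM k n d,
    fun _ _ _ h => ⟨fun d => finite_dim h n d, fun _ hR => finite_growth h n hR⟩⟩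

end Pool.Agent.Results.MP_40dc3c_ag.GrowthOfMissingClasses
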