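import Pool.Agent.Helper62.DB.Two

/-!
# MP_40dc3c_ag: the Tate conjecture for singular varieties and unions of two affine spaces

Let `T = (H, C, cl, special)` be a homology theory with cycle classes on the schemes over a field `k`
of arbitrary characteristic (`CycleTheory`, with the axioms `IsValid`): `(H m).M X n` is the homology
of `X` in degree `2 n + m` twisted by `n`, `C.M X n` the group of cycles of dimension `n` modulo
rational equivalence, `special X n` a subspace of `(H 0).M X n`. Over a finitely generated field `k` the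
Borel–Moore étale homology with the classes invariant under the Galois group is an example.
`T.Algebraic X a` says that all special classes of dimension `a` on `X` are algebraic, which is the
assertion of the question for `X` and `j = a`.

For a polynomial `f` in `N` variables, `hyper f` is the possibly singular, reducible or non-reduced
hypersurface `f = 0` in the affine space of dimension `N`, and `dblS f` is the hypersurface
`t ^ 2 - t = y f(x)` in the affine space of dimension `N + 2`, a double cover of the affine space with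
the coordinates `x, y`. It is smooth, and the union of two open affine spaces: the complement of the
closed subscheme `t = 1, f = 0` is the affine space with the coordinates `x` and `y / (t - 1) = t / f`.
-/

set_option autoImplicit false

open CategoryTheory AlgebraicGeometry Pool.Agent.Helper62.DB

open Pool.Agent.Y138.UC (Sch CycleTheory IsVariety IsBun aff bil)

universe v

namespace Pool.Agent.Results.MP_40dc3c_ag.UnionsOfTwoAffineSpaces

/-- The hypersurface `f = 0` in the affine space. -/
noncomputable def hyper {k : Type} [Field k] {N : ℕ} (f : MvPolynomial (Fin N) k) : Sch k :=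
  aff k (MvPolynomial (Fin N) k ⧸ Ideal.span {f})

/-- There is an affine variety which is a locally trivial bundle of affine spaces over `X`. (By
Jouanolou's trick this holds for all quasi-projective varieties `X`.) -/
def HasBundle {k : Type} [Field k] (X : Sch k) : Prop :=
  ∃ (E : Sch k) (f : E ⟶ X) (m : ℕ), IsBun f m ∧ IsAffine E.left ∧ IsVariety E

variable {k : Type} [Field k] {F : Type v} [Field F]

/-- All special classes are algebraic for all varieties with an affine bundle; for the smooth affine
varieties which are unions of two open affine spaces; for the double covers `t ^ 2 - t = y f(x)`; for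
the double covers `t ^ 2 - t = y (t_0 q_0(x) + ⋯ + t_r q_r(x))` with `deg q_i ≤ 2`, of degree at
most four. -/
def Forms (T : CycleTheory.{0, v} k F) : List Prop :=
  [∀ X : Sch k, IsVariety X → HasBundle X → ∀ a, T.Algebraic X a,
    ∀ X : Sch k, IsVariety X → IsAffine X.left → Smooth X.hom → (∃ M, TwoSpaces M X) →
      ∀ a, T.Algebraic X a,
    ∀ (N : ℕ) (f : MvPolynomial (Fin N) k) (a : ℤ), T.Algebraic (dblS f) a,
    ∀ (N r : ℕ) (q : Fin (r + 1) → MvPolynomial (Fin N) k), (∀ i, (q i).totalDegree ≤ 2) →
      ∀ a, T.Algebraic (dblS (bil q)) a]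

section proof

variable {T : CycleTheory.{0, v} k F} (hT : T.IsValid)

lemma variety_dbl {D : Type} [CommRing D] [Algebra k D] [Algebra.FiniteType k D] (f : D) :
    IsVariety (dblS (k := k) f) :=
  Pool.Agent.Y138.UC.isVariety_aff (Db f)

lemma affine_dbl {D : Type} [CommRing D] [Algebra k D] (f : D) :
    IsAffine (dblS (k := k) f).left := by
  change IsAffine (Spec _)
  infer_instance

/-- the polynomial ring in the variables of `bil q` -/
noncomputable def ebil (r N : ℕ) :
    Polynomial (MvPolynomial (Fin (r + 1) ⊕ Fin N) k) ≃ₐ[k] MvPolynomial (Fin (r + 1 + N + 1)) k :=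
  addVar k (MvPolynomial.renameEquiv k finSumFinEquiv)

/-- the coordinate ring of the cubic hypersurface -/
noncomputable def hypE {N r : ℕ} (q : Fin (r + 1) → MvPolynomial (Fin N) k) :
    (MvPolynomial (Fin (r + 1) ⊕ Fin N) k ⧸ Ideal.span {bil q}) ≃ₐ[k]
      (MvPolynomial (Fin (r + 1) ⊕ Fin N) k ⧸ Ideal.span (Set.range fun _ : Unit => bil q)) :=
  Ideal.quotientEquivAlgOfEq k (by rw [Set.range_const])

include hT

lemma affine_of_quartic (h : ∀ (N r : ℕ) (q : Fin (r + 1) → MvPolynomial (Fin N) k),
    (∀ i, (q i).totalDegree ≤ 2) → ∀ a, T.Algebraic (dblS (bil q)) a)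
    (E : Sch k) (hE' : IsAffine E.left) (hE : IsVariety E) (a : ℤ) : T.Algebraic E a := by
  obtain ⟨B, _, _, hB, ⟨e⟩⟩ := Pool.Agent.Y138.UC.exists_aff_iso E hE
  refine hT.algebraic_of_iso e hE ?_
  obtain ⟨N, r, q, hN, hq, ⟨e'⟩⟩ := Pool.Agent.Y138.UC.exists_presentation k B (a + 2).toNat
  refine hT.algebraic_of_iso (Pool.Agent.Y138.UC.affIso e')
    (Pool.Agent.Y138.UC.isVariety_aff B) ?_
  refine hT.zeros_of_hyp q a (by omega) (by omega) ?_
  refine hT.algebraic_of_iso (Pool.Agent.Y138.UC.affIso (hypE q))
    (Pool.Agent.Y138.UC.isVariety_aff _) ?_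
  exact alg_of_dbl hT (bil q) (ebil r N) _ (by push_cast; omega) (h N r q hq _)

lemma quartic_of_dbl (h : ∀ (N : ℕ) (f : MvPolynomial (Fin N) k) (a : ℤ), T.Algebraic (dblS f) a)
    (E : Sch k) (hE' : IsAffine E.left) (hE : IsVariety E) (a : ℤ) : T.Algebraic E a := by
  obtain ⟨B, _, _, hB, ⟨e⟩⟩ := Pool.Agent.Y138.UC.exists_aff_iso E hE
  refine hT.algebraic_of_iso e hE ?_
  obtain ⟨N, r, q, hN, hq, ⟨e'⟩⟩ := Pool.Agent.Y138.UC.exists_presentation k B (a + 2).toNat
  refine hT.algebraic_of_iso (Pool.Agent.Y138.UC.affIso e')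
    (Pool.Agent.Y138.UC.isVariety_aff B) ?_
  refine hT.zeros_of_hyp q a (by omega) (by omega) ?_
  refine hT.algebraic_of_iso (Pool.Agent.Y138.UC.affIso (hypE q))
    (Pool.Agent.Y138.UC.isVariety_aff _) ?_
  let ε : MvPolynomial (Fin (r + 1) ⊕ Fin N) k ≃ₐ[k] MvPolynomial (Fin (r + 1 + N)) k :=
    MvPolynomial.renameEquiv k finSumFinEquiv
  refine hT.algebraic_of_iso (Pool.Agent.Y138.UC.affIso (quotEquiv k ε (bil q)).symm)
    (Pool.Agent.Y138.UC.isVariety_aff _) ?_
  exact alg_of_dbl hT (ε (bil q)) (addVar k AlgEquiv.refl) _ (by push_cast; omega) (h _ _ _)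

lemma bundle_of_affine (h : ∀ (E : Sch k), IsAffine E.left → IsVariety E → ∀ a, T.Algebraic E a)
    (X : Sch k) (hX : IsVariety X) (hb : HasBundle X) (a : ℤ) : T.Algebraic X a := by
  obtain ⟨E, f, m, hf, hE, hE'⟩ := hb
  exact hT.algebraic_of_bundle f hf hX (h E hE hE' _)

theorem forms_tfae : (Forms T).TFAE := by
  unfold Forms
  tfae_have 1 → 2 := by
    intro h X hX hX' _ _
    refine h X hX ⟨X, 𝟙 X, 0, ?_, hX', hX⟩
    have : IsIso (𝟙 X : X ⟶ X).left := inferInstance
    exact Pool.Agent.Y138.UC.isAffineBundle_of_isIso (𝟙 X : X ⟶ X).left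
  tfae_have 2 → 3 := fun h N f => h _ (variety_dbl f) (affine_dbl f)
    (smooth_dblS f (addVar k AlgEquiv.refl)) ⟨_, two_spaces f (addVar k AlgEquiv.refl)⟩
  tfae_have 3 → 1 := fun h => bundle_of_affine hT (quartic_of_dbl hT h)
  tfae_have 2 → 4 := fun h N r q _ => h _ (variety_dbl (bil q)) (affine_dbl (bil q))
    (smooth_dblS (bil q) (ebil r N)) ⟨_, two_spaces (bil q) (ebil r N)⟩
  tfae_have 4 → 1 := fun h => bundle_of_affine hT (affine_of_quartic hT h)
  tfae_finish

end proof

/-- **The Tate conjecture for singular varieties and unions of two affine spaces.** See the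
explanations above. -/
theorem result (T : CycleTheory.{0, v} k F) (hT : T.IsValid) :
    -- the geometry of the double covers
    (∀ (N : ℕ) (f : MvPolynomial (Fin N) k), IsVariety (dblS (k := k) f) ∧
      IsAffine (dblS (k := k) f).left ∧ Smooth (dblS (k := k) f).hom ∧
      TwoSpaces (N + 1) (dblS (k := k) f)) ∧
    -- from the double cover to the singular hypersurface
    (∀ (N : ℕ) (f : MvPolynomial (Fin N) k) (a : ℤ), a ≠ N → T.Algebraic (dblS f) (a + 1) →
      T.Algebraic (hyper f) a) ∧
    -- the equivalence for weighted theories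
    (T.IsWeighted → ∀ (N : ℕ) (f : MvPolynomial (Fin N) k) (a : ℤ), a ≠ N →
      (T.Algebraic (dblS f) (a + 1) ↔ T.Algebraic (hyper f) a)) ∧
    -- the case of strict theories
    (T.IsStrict → ∀ (N : ℕ) (f : MvPolynomial (Fin N) k) (a : ℤ), T.Algebraic (hyper f) a →
      T.Algebraic (dblS f) (a + 1)) ∧
    -- all varieties
    (Forms T).TFAE ∧
    (T.IsStrict → ∀ P ∈ Forms T, (P ↔ ∀ X : Sch k, IsVariety X → ∀ a, T.Algebraic X a)) := by
  refine ⟨fun N f => ⟨variety_dbl f, affine_dbl f, smooth_dblS f (addVar k AlgEquiv.refl),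
      two_spaces f (addVar k AlgEquiv.refl)⟩,
    fun N f a ha h => alg_of_dbl hT f (addVar k AlgEquiv.refl) a (by push_cast; omega) h,
    fun hw N f a ha => ⟨fun h => alg_of_dbl hT f (addVar k AlgEquiv.refl) a
      (by push_cast; omega) h, fun h => dbl_of_alg hT f (addVar k AlgEquiv.refl) hw a
      (by push_cast; omega) h⟩,
    fun hs N f a h => dbl_of_strict hT f (addVar k AlgEquiv.refl) hs a h,
    forms_tfae hT, ?_⟩
  intro hs P hP
  have h1 : P ↔ ∀ X : Sch k, IsVariety X → HasBundle X → ∀ a, T.Algebraic X a :=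
    (forms_tfae hT) P hP _ (by unfold Forms; exact List.mem_cons_self)
  rw [h1]
  refine ⟨fun h => ?_, fun h X hX _ => h X hX⟩
  refine hs.algebraic_of_affine hT fun E _ hE a => ?_
  refine h E hE ⟨E, 𝟙 E, 0, ?_, inferInstance, hE⟩ a
  have : IsIso (𝟙 E : E ⟶ E).left := inferInstance
  exact Pool.Agent.Y138.UC.isAffineBundle_of_isIso (𝟙 E : E ⟶ E).left

end Pool.Agent.Results.MP_40dc3c_ag.UnionsOfTwoAffineSpaces
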